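import Mathlib

/-! Project LN (MP_599705_an): statements of the pieces on the Delaunay triangle around `0`. -/

set_option autoImplicit false

namespace Pool.Agent.Helper54.LN.Spec

open Complex Metric Set

/-- LN-Root1 (file Root1.lean). Proof: minimise the continuous function
`g c = ‖c‖ ^ 2 - infDist c E ^ 2` over `closedBall 0 1`; the minimiser is `c`, `ρ = - g c`.
`g 0 = - infDist 0 E ^ 2 ≤ - 1` gives `1 ≤ ρ`; `infDist c E ≤ m` gives `ρ + ‖c‖ ^ 2 ≤ m ^ 2`, so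
`‖c‖ < 3 / 4` is an interior point. Fix `v` (`v = 0` is clear), let `t n = ε / (n + 1)`,
`c n = c + t n * v ∈ closedBall 0 1`, `p n ∈ E` a nearest point to `c n`. For every `w` and every
`p ∈ E`: `‖w‖ ^ 2 - ‖w - p‖ ^ 2 = 2 * (p * conj w).re - ‖p‖ ^ 2 ≤ g w`, with equality if `p` is
a nearest point to `w`. So `g c ≤ g (c n) = 2 * (p n * conj (c n)).re - ‖p n‖ ^ 2
≤ g c + 2 * t n * (p n * conj v).re`, hence `0 ≤ (p n * conj v).re`. A limit point `p` of the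
bounded sequence `p n` is a nearest point to `c`. (Same method as in
Pool/Agent/Helper51/LC/GeoA.lean, which may be copied.) -/
theorem root_min {E : Set ℂ} {m : ℝ} (hE : IsClosed E) (hn : ∀ p ∈ E, 1 ≤ ‖p‖) (hm : m < 5 / 4)
    (hc : ∀ w : ℂ, ∃ p ∈ E, ‖w - p‖ ≤ m) :
    ∃ (c : ℂ) (ρ : ℝ), 1 ≤ ρ ∧ ρ + ‖c‖ ^ 2 ≤ m ^ 2 ∧
      ∀ v : ℂ, ∃ p ∈ E, ‖p - c‖ ^ 2 = ρ + ‖c‖ ^ 2 ∧ 0 ≤ (p * (starRingEnd ℂ) v).re := by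
  sorry

/-- LN-Root2 (file Root2.lean). Proof: take any `p₁ ∈ N`, `d₁ = ‖p₁‖`, `φ₁ = arg p₁`. The set
of the angles `φ ∈ [φ₁, φ₁ + π]` with `N ∩ {r * exp (φ * I) : 1 ≤ r}` nonempty is compact and
contains `φ₁`; `φ₂` is its maximum. For `ε > 0` the direction `v = exp ((φ₂ + ε + π / 2) * I)`
gives a point of `N` with an angle in `[φ₂ + ε, φ₂ + ε + π]`; by the maximality of `φ₂` it
is not in `(φ₂, φ₁ + π]`, so it is in `[φ₁ + π, φ₂ + ε + π]`; let `ε → 0` and use the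
compactness: there is a point with an angle `φ₃ ∈ [φ₁ + π, φ₂ + π]`. -/
theorem root_angles {N : Set ℂ} (hN : IsCompact N) (hn : ∀ p ∈ N, 1 ≤ ‖p‖)
    (hdir : ∀ v : ℂ, ∃ p ∈ N, 0 ≤ (p * (starRingEnd ℂ) v).re) :
    ∃ d₁ d₂ d₃ φ₁ φ₂ φ₃ : ℝ, 1 ≤ d₁ ∧ 1 ≤ d₂ ∧ 1 ≤ d₃ ∧
      φ₁ ≤ φ₂ ∧ φ₂ ≤ φ₁ + Real.pi ∧ φ₁ + Real.pi ≤ φ₃ ∧ φ₃ ≤ φ₂ + Real.pi ∧
      (d₁ : ℂ) * exp (φ₁ * I) ∈ N ∧ (d₂ : ℂ) * exp (φ₂ * I) ∈ N ∧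
      (d₃ : ℂ) * exp (φ₃ * I) ∈ N := by
  sorry

/-! ### LN-Trig (file Trig.lean) -/

/-- two points in a common disc of radius `m`, seen from `0` -/
theorem pair_bound {m d₁ d₂ φ₁ φ₂ : ℝ} {c : ℂ} (hd₁ : 0 ≤ d₁) (hd₂ : 0 ≤ d₂)
    (h₁ : ‖(d₁ : ℂ) * exp (φ₁ * I) - c‖ ≤ m) (h₂ : ‖(d₂ : ℂ) * exp (φ₂ * I) - c‖ ≤ m) :
    (d₁ + d₂) * |Real.sin ((φ₂ - φ₁) / 2)| ≤ 2 * m := by
  sorry

/-- the barycentric identity: `d ^ 2 - 2 * d * (exp (φ * I) * conj c).re = ρ` for three points -/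
theorem triple_identity {ρ d₁ d₂ d₃ φ₁ φ₂ φ₃ : ℝ} {c : ℂ} (hd₁ : 0 < d₁) (hd₂ : 0 < d₂)
    (hd₃ : 0 < d₃)
    (h₁ : ‖(d₁ : ℂ) * exp (φ₁ * I) - c‖ ^ 2 = ρ + ‖c‖ ^ 2)
    (h₂ : ‖(d₂ : ℂ) * exp (φ₂ * I) - c‖ ^ 2 = ρ + ‖c‖ ^ 2)
    (h₃ : ‖(d₃ : ℂ) * exp (φ₃ * I) - c‖ ^ 2 = ρ + ‖c‖ ^ 2) :
    Real.sin (φ₃ - φ₂) * (d₁ - ρ / d₁) + Real.sin (φ₁ - φ₃) * (d₂ - ρ / d₂) +
      Real.sin (φ₂ - φ₁) * (d₃ - ρ / d₃) = 0 := by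
  sorry

/-- `g` is the smallest, `y` the largest and `h` the middle one of three angles with sum `2π`;
`k₁, k₂, k₃` are attached to `g, h, y`. Proof: `Real.sin y` is the smallest of the three
sines (it is positive), so `sin y * (k₁ + k₂ + k₃) ≤ κ * (sin g + sin h - 2 * sin y)`, and
`(sin g + sin h) / sin y = sin g * tan (y / 2) - cos g ≤ sin g * tan (y₀ / 2) - cos g`. -/
theorem triple_bound {κ y₀ g h y k₁ k₂ k₃ : ℝ} (hκ : 0 ≤ κ) (hgh : g ≤ h) (hhy : h ≤ y)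
    (hy : y ≤ y₀) (hy₀ : y₀ < Real.pi) (hg : 0 < g) (hsum : g + h + y = 2 * Real.pi)
    (h₁ : -κ ≤ k₁) (h₂ : -κ ≤ k₂) (h₃ : -κ ≤ k₃)
    (hk : Real.sin g * k₁ + Real.sin h * k₂ + Real.sin y * k₃ ≤ 0) :
    k₁ + k₂ + k₃ ≤ κ * (Real.sin g * Real.tan (y₀ / 2) - Real.cos g - 2) := by
  sorry

end Pool.Agent.Helper54.LN.Spec
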